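import Mathlib
import Pool.Agent.Run7.h566.ML.Place

/-! Multilinear exponential sums at points whose small multiples are not close to the integers. -/

set_option autoImplicit false

open Finset
open scoped Classical

namespace Pool.Agent.Run7.h566.LW

open Pool.Agent.H469R2.NK (e norm_e e_add e_zero conj_e)
open Pool.Agent.Run7.h566.BL (nd spaced geo)
open Pool.Agent.Run7.h566.ML (val cube card_cube Free G lin)

/-- one block -/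
lemma block (M K : ℕ) (γ η : ℝ) (hη : 0 < η) (hη1 : η ≤ 1)
    (hγ : ∀ k : ℕ, 1 ≤ k → k ≤ K → ∀ t : ℤ, 2 * η < |(k : ℝ) * γ - t|) (T : Finset ℕ)
    (hT : ∀ m ∈ T, ∀ m' ∈ T, m < m' → m' - m ≤ K) :
    ∑ m ∈ T, G M ((m : ℝ) * γ) ≤ M + 8 * (1 / η * (1 + Real.log (1 / η))) := by
  set T' := T.filter fun m : ℕ => ∀ p : ℤ, η ≤ |(m : ℝ) * γ - p| with hT'
  have hG : ∀ β : ℝ, G M β ≤ M := by
    intro β
    unfold Pool.Agent.Run7.h566.ML.G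
    refine (norm_sum_le _ _).trans ?_
    rw [sum_congr rfl fun a _ => norm_e _, sum_const, card_range, nsmul_eq_mul, mul_one]
  have hG0 : ∀ β : ℝ, 0 ≤ G M β := fun β => norm_nonneg _
  have h1 : ∑ m ∈ T', G M ((m : ℝ) * γ) ≤ 8 * (1 / η * (1 + Real.log (1 / η))) := by
    have h0 : ∀ m ∈ T', ∀ p : ℤ, η ≤ |(m : ℝ) * γ - p| := fun m hm => by
      rw [hT', mem_filter] at hm
      exact hm.2
    have hs : ∀ m ∈ T', ∀ m' ∈ T', m ≠ m' → ∀ p : ℤ,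
        η ≤ |(m : ℝ) * γ - (m' : ℝ) * γ - p| := by
      intro m hm m' hm' hn p
      rw [hT', mem_filter] at hm hm'
      rcases lt_or_gt_of_ne hn with hlt | hlt
      · have h1 := hγ (m' - m) (by omega) (hT m hm.1 m' hm'.1 hlt) (-p)
        rw [Nat.cast_sub hlt.le, ← abs_neg] at h1
        have e1 : -(((m' : ℝ) - m) * γ - ((-p : ℤ) : ℝ)) = (m : ℝ) * γ - (m' : ℝ) * γ - p := by
          push_cast
          ring
        rw [e1] at h1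
        linarith
      · have h1 := hγ (m - m') (by omega) (hT m' hm'.1 m hm.1 hlt) p
        rw [Nat.cast_sub hlt.le] at h1
        have e1 : ((m : ℝ) - m') * γ - (p : ℝ) = (m : ℝ) * γ - (m' : ℝ) * γ - p := by ring
        rw [e1] at h1
        linarith
    have h1 := spaced T' (fun m => (m : ℝ) * γ) η hη hη1 h0 hs
    calc ∑ m ∈ T', G M ((m : ℝ) * γ) ≤ ∑ m ∈ T', 4 * (1 / nd ((m : ℝ) * γ)) := by
          refine sum_le_sum fun m hm => ?_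
          have h2 : 0 < nd ((m : ℝ) * γ) := lt_of_lt_of_le hη (h0 m hm _)
          refine (geo _ M h2).trans (le_of_eq ?_)
          ring
      _ = 4 * ∑ m ∈ T', 1 / nd ((m : ℝ) * γ) := by rw [mul_sum]
      _ ≤ 4 * (2 * (1 / η * (1 + Real.log (1 / η)))) := by gcongr
      _ = _ := by ring
  have h2 : ((T.filter fun m : ℕ => ¬ ∀ p : ℤ, η ≤ |(m : ℝ) * γ - p|).card : ℝ) ≤ 1 := by
    have : (T.filter fun m : ℕ => ¬ ∀ p : ℤ, η ≤ |(m : ℝ) * γ - p|).card ≤ 1 := by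
      rw [card_le_one]
      intro m hm m' hm'
      rw [mem_filter] at hm hm'
      obtain ⟨hm1, hm2⟩ := hm
      obtain ⟨hm'1, hm'2⟩ := hm'
      push Not at hm2 hm'2
      obtain ⟨p, hp⟩ := hm2
      obtain ⟨p', hp'⟩ := hm'2
      by_contra hne
      rcases lt_or_gt_of_ne hne with hlt | hlt
      · have h3 := hγ (m' - m) (by omega) (hT m hm1 m' hm'1 hlt) (p' - p)
        rw [Nat.cast_sub hlt.le] at h3
        have e1 : ((m' : ℝ) - m) * γ - ((p' - p : ℤ) : ℝ) = ((m' : ℝ) * γ - p') - ((m : ℝ) * γ - p) := by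
          push_cast
          ring
        rw [e1] at h3
        have := abs_sub ((m' : ℝ) * γ - p') ((m : ℝ) * γ - p)
        linarith
      · have h3 := hγ (m - m') (by omega) (hT m' hm'1 m hm1 hlt) (p - p')
        rw [Nat.cast_sub hlt.le] at h3
        have e1 : ((m : ℝ) - m') * γ - ((p - p' : ℤ) : ℝ) = ((m : ℝ) * γ - p) - ((m' : ℝ) * γ - p') := by
          push_cast
          ring
        rw [e1] at h3
        have := abs_sub ((m : ℝ) * γ - p) ((m' : ℝ) * γ - p')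
        linarith
    exact_mod_cast this
  have h3 : ∑ m ∈ T.filter (fun m : ℕ => ¬ ∀ p : ℤ, η ≤ |(m : ℝ) * γ - p|), G M ((m : ℝ) * γ) ≤ M := by
    refine (sum_le_card_nsmul _ _ (M : ℝ) fun m _ => hG _).trans ?_
    rw [nsmul_eq_mul]
    have : (0 : ℝ) ≤ M := Nat.cast_nonneg _
    nlinarith
  rw [← sum_filter_add_sum_filter_not T (fun m : ℕ => ∀ p : ℤ, η ≤ |(m : ℝ) * γ - p|)]
  linarith

/-- all blocks -/
lemma blocks (M K L : ℕ) (hK : 1 ≤ K) (γ η : ℝ) (hη : 0 < η) (hη1 : η ≤ 1)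
    (hγ : ∀ k : ℕ, 1 ≤ k → k ≤ K → ∀ t : ℤ, 2 * η < |(k : ℝ) * γ - t|) :
    ∑ m ∈ Icc 1 L, G M ((m : ℝ) * γ) ≤
      ((L : ℝ) / K + 1) * (M + 8 * (1 / η * (1 + Real.log (1 / η)))) := by
  have hmaps : ∀ m ∈ Icc 1 L, m / K ∈ range (L / K + 1) := by
    intro m hm
    rw [mem_Icc] at hm
    rw [mem_range]
    exact Nat.lt_succ_of_le (Nat.div_le_div_right hm.2)
  rw [← sum_fiberwise_of_maps_to hmaps]
  have h1 : ∀ j ∈ range (L / K + 1), ∑ m ∈ (Icc 1 L).filter (fun m => m / K = j), G M ((m : ℝ) * γ) ≤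
      M + 8 * (1 / η * (1 + Real.log (1 / η))) := by
    intro j _
    refine block M K γ η hη hη1 hγ _ fun m hm m' hm' hlt => ?_
    rw [mem_filter] at hm hm'
    have h2 := Nat.div_add_mod m K
    have h3 := Nat.div_add_mod m' K
    have h4 := Nat.mod_lt m' hK
    rw [hm.2] at h2
    rw [hm'.2] at h3
    omega
  refine (sum_le_card_nsmul _ _ _ h1).trans ?_
  rw [card_range, nsmul_eq_mul]
  have h4 : 0 ≤ M + 8 * (1 / η * (1 + Real.log (1 / η))) := by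
    have h5 : 1 ≤ 1 / η := by rw [le_div_iff₀ hη]; linarith
    have h6 : 0 ≤ Real.log (1 / η) := Real.log_nonneg h5
    have : (0 : ℝ) ≤ M := Nat.cast_nonneg _
    positivity
  apply mul_le_mul_of_nonneg_right _ h4
  push_cast
  have : ((L / K : ℕ) : ℝ) ≤ (L : ℝ) / K := Nat.cast_div_le
  linarith

/-- the number of the multiples -/
noncomputable def kk (M : ℕ) : ℕ := ⌊(M : ℝ) ^ (1 / 24 : ℝ)⌋₊

/-- **Multilinear sums.** -/
theorem exp_bound (n : ℕ) : ∃ C : ℝ, 1 ≤ C ∧ ∀ M : ℕ, 1 ≤ M → ∀ γ : ℝ,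
    (∀ k : ℕ, 1 ≤ k → k ≤ kk M → ∀ t : ℤ, (M : ℝ) ^ (-(1 / 2) : ℝ) < |(k : ℝ) * γ - t|) →
    ∀ F : Fin (n + 2) → (Fin (n + 2) → ℕ) → ℂ, (∀ j a, ‖F j a‖ ≤ 1) → (∀ j, Free j (F j)) →
    ‖∑ a ∈ cube (n + 2) M, e ((∏ i, (a i : ℝ)) * γ) * ∏ j, F j a‖ ≤
      C * (M : ℝ) ^ (-(1 / (48 * 2 ^ (n + 1))) : ℝ) * (M : ℝ) ^ (n + 2) := by
  obtain ⟨C1, hC1, hlin⟩ := lin (n + 1) (1 / 48) (by norm_num)
  set C3 : ℝ := max 1 (196 * C1) with hC3
  have hC31 : 1 ≤ C3 := le_max_left _ _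
  have hC32 : 196 * C1 ≤ C3 := le_max_right _ _
  refine ⟨C3, hC31, fun M hM γ hγ F hF1 hF2 => ?_⟩
  have hMR : (1 : ℝ) ≤ M := by exact_mod_cast hM
  have hM0 : (0 : ℝ) < M := by linarith
  have hM24 : (1 : ℝ) ≤ (M : ℝ) ^ (1 / 24 : ℝ) := Real.one_le_rpow hMR (by norm_num)
  have hK1 : 1 ≤ kk M := by
    unfold kk
    exact Nat.le_floor (by exact_mod_cast hM24)
  have hK2 : (M : ℝ) ^ (1 / 24 : ℝ) ≤ 2 * (kk M : ℝ) := by
    have h1 : (M : ℝ) ^ (1 / 24 : ℝ) < (kk M : ℝ) + 1 := Nat.lt_floor_add_one _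
    have h2 : (1 : ℝ) ≤ (kk M : ℝ) := by exact_mod_cast hK1
    linarith
  have hK0 : (0 : ℝ) < kk M := by exact_mod_cast hK1
  set τ : ℝ := (M : ℝ) ^ (-(1 / 2) : ℝ) with hτ
  have hτ0 : 0 < τ := Real.rpow_pos_of_pos hM0 _
  have hτ1 : τ ≤ 1 := Real.rpow_le_one_of_one_le_of_nonpos hMR (by norm_num)
  have hblk := blocks M (kk M) (M ^ (n + 1)) hK1 γ (τ / 2) (by positivity) (by linarith)
    (fun k hk1 hk2 t => by
      have := hγ k hk1 hk2 t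
      linarith)
  -- the second factor
  have hinv : 1 / (τ / 2) = 2 * (M : ℝ) ^ (1 / 2 : ℝ) := by
    have h1 : τ = ((M : ℝ) ^ (1 / 2 : ℝ))⁻¹ := by rw [hτ, Real.rpow_neg hM0.le]
    rw [h1]
    have h2 : 0 < (M : ℝ) ^ (1 / 2 : ℝ) := Real.rpow_pos_of_pos hM0 _
    field_simp
  have h4 : (1 : ℝ) ≤ (M : ℝ) ^ (1 / 4 : ℝ) := Real.one_le_rpow hMR (by norm_num)
  have hlog : 1 + Real.log (2 * (M : ℝ) ^ (1 / 2 : ℝ)) ≤ 4 * (M : ℝ) ^ (1 / 4 : ℝ) := by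
    rw [Real.log_mul (by norm_num) (by positivity), Real.log_rpow hM0]
    have h1 : Real.log M ≤ (M : ℝ) ^ (1 / 4 : ℝ) / (1 / 4) := Real.log_le_rpow_div hM0.le (by norm_num)
    have h2 := Real.log_two_lt_d9
    linarith
  have h34 : (M : ℝ) ^ (1 / 2 : ℝ) * (M : ℝ) ^ (1 / 4 : ℝ) ≤ M := by
    rw [← Real.rpow_add hM0]
    calc (M : ℝ) ^ (1 / 2 + 1 / 4 : ℝ) ≤ (M : ℝ) ^ (1 : ℝ) :=
          Real.rpow_le_rpow_of_exponent_le hMR (by norm_num)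
      _ = M := Real.rpow_one _
  have hf2 : (M : ℝ) + 8 * (1 / (τ / 2) * (1 + Real.log (1 / (τ / 2)))) ≤ 65 * M := by
    rw [hinv]
    have h5 : 2 * (M : ℝ) ^ (1 / 2 : ℝ) * (1 + Real.log (2 * (M : ℝ) ^ (1 / 2 : ℝ))) ≤
        2 * (M : ℝ) ^ (1 / 2 : ℝ) * (4 * (M : ℝ) ^ (1 / 4 : ℝ)) := by gcongr
    nlinarith
  -- the first factor
  have hMn : (M : ℝ) ^ (n + 1) = (M : ℝ) ^ (1 / 24 : ℝ) * (M : ℝ) ^ ((n : ℝ) + 1 - 1 / 24) := by
    rw [← Real.rpow_add hM0, ← Real.rpow_natCast]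
    congr 1
    push_cast
    ring
  have hMn1 : (1 : ℝ) ≤ (M : ℝ) ^ ((n : ℝ) + 1 - 1 / 24) := by
    apply Real.one_le_rpow hMR
    have : (0 : ℝ) ≤ n := Nat.cast_nonneg _
    linarith
  have hf1 : (((M ^ (n + 1) : ℕ) : ℝ) / (kk M : ℝ) + 1) ≤ 3 * (M : ℝ) ^ ((n : ℝ) + 1 - 1 / 24) := by
    have h5 : ((M ^ (n + 1) : ℕ) : ℝ) / (kk M : ℝ) ≤ 2 * (M : ℝ) ^ ((n : ℝ) + 1 - 1 / 24) := by
      rw [div_le_iff₀ hK0]
      push_cast
      rw [hMn]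
      have h6 : 0 < (M : ℝ) ^ ((n : ℝ) + 1 - 1 / 24) := by linarith
      nlinarith
    linarith
  have hsum : ∑ m ∈ Icc 1 (M ^ (n + 1)), G M ((m : ℝ) * γ) ≤
      195 * (M : ℝ) ^ ((n : ℝ) + 2 - 1 / 24) := by
    refine hblk.trans ?_
    have h5 : (M : ℝ) ^ ((n : ℝ) + 2 - 1 / 24) = (M : ℝ) ^ ((n : ℝ) + 1 - 1 / 24) * M := by
      conv_rhs => rw [← Real.rpow_one (M : ℝ), ← Real.rpow_mul hM0.le]
      rw [← Real.rpow_add hM0]
      congr 1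
      ring
    calc (((M ^ (n + 1) : ℕ) : ℝ) / (kk M : ℝ) + 1) *
        (M + 8 * (1 / (τ / 2) * (1 + Real.log (1 / (τ / 2)))))
        ≤ (3 * (M : ℝ) ^ ((n : ℝ) + 1 - 1 / 24)) * (65 * M) := by
          apply mul_le_mul hf1 hf2 _ (by positivity)
          have h6 : 0 ≤ Real.log (1 / (τ / 2)) := by
            apply Real.log_nonneg
            rw [le_div_iff₀ (by positivity)]
            linarith
          positivity
      _ = 195 * (M : ℝ) ^ ((n : ℝ) + 2 - 1 / 24) := by rw [h5]; ring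
  have h6 := hlin M hM γ F hF1 hF2
  have h7 : (M : ℝ) ^ (1 / 48 - ((n + 1 : ℕ) : ℝ) - 1 : ℝ) *
      ∑ m ∈ Icc 1 (M ^ (n + 1)), G M ((m : ℝ) * γ) + (M : ℝ) ^ (-1 : ℝ) ≤
      196 * (M : ℝ) ^ (-(1 / 48) : ℝ) := by
    have h8 : (M : ℝ) ^ (1 / 48 - ((n + 1 : ℕ) : ℝ) - 1 : ℝ) *
        ∑ m ∈ Icc 1 (M ^ (n + 1)), G M ((m : ℝ) * γ) ≤ 195 * (M : ℝ) ^ (-(1 / 48) : ℝ) := by
      calc (M : ℝ) ^ (1 / 48 - ((n + 1 : ℕ) : ℝ) - 1 : ℝ) *
          ∑ m ∈ Icc 1 (M ^ (n + 1)), G M ((m : ℝ) * γ)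
          ≤ (M : ℝ) ^ (1 / 48 - ((n + 1 : ℕ) : ℝ) - 1 : ℝ) *
            (195 * (M : ℝ) ^ ((n : ℝ) + 2 - 1 / 24)) := by gcongr
        _ = 195 * ((M : ℝ) ^ (1 / 48 - ((n + 1 : ℕ) : ℝ) - 1 : ℝ) *
            (M : ℝ) ^ ((n : ℝ) + 2 - 1 / 24)) := by ring
        _ = _ := by
            rw [← Real.rpow_add hM0]
            congr 2
            push_cast
            ring
    have h9 : (M : ℝ) ^ (-1 : ℝ) ≤ (M : ℝ) ^ (-(1 / 48) : ℝ) :=
      Real.rpow_le_rpow_of_exponent_le hMR (by norm_num)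
    linarith
  have h8 := h6.trans (mul_le_mul_of_nonneg_left h7 (by positivity))
  refine (pow_le_pow_iff_left₀ (norm_nonneg _) (by positivity) (pow_ne_zero (n + 1) two_ne_zero)).1
    (h8.trans ?_)
  rw [mul_pow, mul_pow]
  have e3 : ((M : ℝ) ^ (-(1 / (48 * 2 ^ (n + 1))) : ℝ)) ^ 2 ^ (n + 1) = (M : ℝ) ^ (-(1 / 48) : ℝ) := by
    rw [← Real.rpow_natCast, ← Real.rpow_mul hM0.le]
    congr 1
    push_cast
    field_simp
  rw [e3]
  have h9 : 196 * C1 ≤ C3 ^ 2 ^ (n + 1) := by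
    refine hC32.trans ?_
    exact le_self_pow₀ hC31 (pow_ne_zero (n + 1) two_ne_zero)
  calc C1 * ((M : ℝ) ^ (n + 1 + 1)) ^ 2 ^ (n + 1) * (196 * (M : ℝ) ^ (-(1 / 48) : ℝ))
      = 196 * C1 * (M : ℝ) ^ (-(1 / 48) : ℝ) * ((M : ℝ) ^ (n + 2)) ^ 2 ^ (n + 1) := by ring
    _ ≤ _ := by gcongr

end Pool.Agent.Run7.h566.LW
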