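import Mathlib
import Pool.Agent.TH869.LPS.Res
import Pool.Agent.Run7.h566.LW.Exp

/-! Power saving for the exceptional set of Littlewood's conjecture in finite families of real numbers
whose exponential sums are small off the resonances. -/

set_option autoImplicit false

open Finset
open scoped Classical

namespace Pool.Agent.Run7.h566.LW

open Pool.Agent.H332R2.Lit (e norm_e)
open Pool.Agent.TH869.LPS (Bad ctr exists_cell dich exists_majorant count log_pos_of)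

/-- the counting bound for a finite family -/
theorem count_fam {ι : Type} (S : Finset ι) (z : ι → ℝ) (M : ℕ) (c : ℤ → ℂ) (f : ℝ → ℝ) (V L g : ℝ)
    (q : ℕ → ℕ) (hM : 1 ≤ M) (hf : ∀ t, (f t : ℂ) = ∑ h ∈ Ioo (-(M:ℤ)) M, c h * e (h * t))
    (hf0 : ∀ t, 0 ≤ f t) (η : ℝ) (hf1 : ∀ t : ℝ, (∀ n : ℤ, η ≤ |t - n|) → 1 ≤ f t)
    (hL : ∑ h ∈ Ioo (-(M:ℤ)) M, ‖c h‖ ≤ L) (hL0 : 0 ≤ L) (hV : 0 ≤ V) (s : ℝ) (hs : s ≤ 1)
    (hc0 : c 0 = ((1 - s : ℝ) : ℂ)) (I : ℕ)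
    (hw : ∀ h : ℕ → ℤ, (∀ i < I, |(h i : ℝ)| ≤ M - 1) → (∃ i < I, h i ≠ 0) →
      ‖∑ l ∈ S, e ((∑ i ∈ range I, (h i : ℝ) * q i) * z l)‖ ≤ V)
    (E : Finset ι) (hE : E ⊆ S)
    (hE1 : ∀ l ∈ E, ∀ i < I, ∀ n : ℤ, η ≤ |(q i * z l - g) - n|) :
    (E.card : ℝ) ≤ (1 - s) ^ I * S.card + L ^ I * V := by
  set φ := S.equivFin with hφ
  set x : ℕ → ℝ := fun l => if h : l < S.card then z (φ.symm ⟨l, h⟩).1 else 0 with hx
  have hxs : ∀ w : ℝ, ∑ l ∈ range S.card, e (w * x l) = ∑ l ∈ S, e (w * z l) := by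
    intro w
    rw [sum_range]
    have h1 : ∀ l : Fin S.card, e (w * x l) = e (w * z (φ.symm l).1) := by
      intro l
      have : x l = z (φ.symm l).1 := by
        rw [hx]
        simp only [l.isLt, dif_pos]
      rw [this]
    rw [sum_congr rfl fun l _ => h1 l]
    have h2 : ∑ l : Fin S.card, e (w * z (φ.symm l).1) = ∑ i : S, e (w * z i.1) :=
      Equiv.sum_comp φ.symm (fun i : S => e (w * z i.1))
    rw [h2]
    exact sum_coe_sort S (fun i => e (w * z i))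
  set E' : Finset ℕ := (range S.card).filter fun l => ∃ h : l < S.card, (φ.symm ⟨l, h⟩).1 ∈ E with hE'
  have h3 := count x S.card M c f V L g q hM hf hf0 η hf1 hL hL0 hV s hs hc0 I
    (fun h hh hne => by
      rw [hxs]
      exact hw h hh hne) E' (filter_subset _ _)
    (fun l hl i hi n => by
      rw [hE', mem_filter] at hl
      obtain ⟨_, hl1, hl2⟩ := hl
      have h4 := hE1 _ hl2 i hi n
      have h5 : x l = z (φ.symm ⟨l, hl1⟩).1 := by
        rw [hx]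
        simp only [hl1, dif_pos]
      rw [h5]
      exact h4)
  refine le_trans ?_ h3
  have h4 : E.card ≤ E'.card := by
    refine card_le_card_of_injOn (fun i => if h : i ∈ S then (φ ⟨i, h⟩ : ℕ) else 0) ?_ ?_
    · intro i hi
      have hi' : i ∈ E := by exact_mod_cast hi
      have his := hE hi'
      rw [mem_coe, hE', mem_filter]
      simp only [his, dif_pos]
      refine ⟨mem_range.2 (φ ⟨i, his⟩).isLt, (φ ⟨i, his⟩).isLt, ?_⟩
      have : φ.symm ⟨(φ ⟨i, his⟩ : ℕ), (φ ⟨i, his⟩).isLt⟩ = ⟨i, his⟩ := by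
        simp
      rw [this]
      exact hi'
    · intro i hi j hj hij
      have hi' : i ∈ S := hE (by exact_mod_cast hi)
      have hj' : j ∈ S := hE (by exact_mod_cast hj)
      simp only [hi', hj', dif_pos] at hij
      have h5 : φ ⟨i, hi'⟩ = φ ⟨j, hj'⟩ := Fin.ext hij
      have h6 := φ.injective h5
      exact congrArg Subtype.val h6
  exact_mod_cast h4

/-- **Families.** -/
theorem fam (c₂ C₂ : ℝ) (hc₂ : 0 < c₂) (hC₂ : 1 ≤ C₂) : ∃ c C : ℝ, 0 < c ∧ 0 < C ∧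
    ∀ (ε α : ℝ), 0 < ε → ε ≤ 1/2 → ∀ q₀ : ℕ,
    (∀ q : ℕ, q₀ ≤ q → ∀ p : ℤ, 2 * ε ≤ (q:ℝ) * |q * α - p|) →
    ∀ θ : ℝ, ∀ N : ℕ, 1 ≤ N → (∀ b : ℕ, 1 ≤ b → b ≤ N → ∀ u v : ℤ, (b:ℝ) * θ ≠ u + v * α) →
    ∀ (ι : Type) (S : Finset ι) (z : ι → ℝ) (P : ℝ), (S.card : ℝ) ≤ P →
    (∀ w : ℝ, (∀ k : ℕ, 1 ≤ k → k ≤ kk N → ∀ t : ℤ, (N : ℝ) ^ (-(1 / 2) : ℝ) < |(k : ℝ) * (w * θ) - t|) →
      ‖∑ i ∈ S, e (w * z i)‖ ≤ C₂ * (N : ℝ) ^ (-c₂) * P) →
    ∀ E : Finset ι, E ⊆ S → (∀ i ∈ E, Bad ε α (z i)) →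
    (E.card : ℝ) ≤ C / ε * (N:ℝ) ^ (-(c * ε / Real.log (1/ε))) * P := by
  obtain ⟨A₁, hA₁⟩ := exists_nat_gt (2 / c₂)
  set A₀ : ℕ := A₁ + 12 with hA₀
  have hA₀r : (0:ℝ) < A₀ := by
    have : 0 < A₀ := by omega
    exact_mod_cast this
  have hA₀12 : (12:ℝ) ≤ A₀ := by
    have : 12 ≤ A₀ := by omega
    exact_mod_cast this
  have hA₀c : 1 / (A₀:ℝ) ≤ c₂ / 2 := by
    rw [div_le_div_iff₀ hA₀r (by norm_num)]
    rw [div_lt_iff₀ hc₂] at hA₁
    have : (A₁:ℝ) ≤ A₀ := by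
      have : A₁ ≤ A₀ := by omega
      exact_mod_cast this
    nlinarith
  refine ⟨1 / (80 * A₀), 4 * C₂, by positivity, by positivity, ?_⟩
  intro ε α hε hε2 q₀ h1 θ N hN hθ ι S z P hSP hexp E hE hbad
  have hlog := log_pos_of ε hε hε2
  set lg := Real.log (1/ε) with hlg
  have hlg0 : 0 < lg := by linarith
  have hi2 : 2 ≤ 1/ε := by rw [le_div_iff₀ hε]; linarith
  have hNR : (1:ℝ) ≤ N := by exact_mod_cast hN
  have hNr : (0:ℝ) < N := by linarith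
  have hP0 : 0 ≤ P := le_trans (Nat.cast_nonneg _) hSP
  -- choice of parameters
  obtain ⟨M, hM1, hM2⟩ : ∃ M : ℕ, 8/ε^2 ≤ (M:ℝ) ∧ (M:ℝ) ≤ 9/ε^2 := by
    refine ⟨⌈8/ε^2⌉₊, Nat.le_ceil _, ?_⟩
    have h2 := Nat.ceil_lt_add_one (by positivity : 0 ≤ 8/ε^2)
    have h3 : 1 ≤ 1/ε^2 := by rw [le_div_iff₀ (by positivity)]; nlinarith
    have h4 : 9/ε^2 = 8/ε^2 + 1/ε^2 := by ring
    linarith
  obtain ⟨R, hR1, hR2⟩ : ∃ R : ℕ, 109/ε^3 ≤ (R:ℝ) ∧ (R:ℝ) ≤ 110/ε^3 := by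
    refine ⟨⌈109/ε^3⌉₊, Nat.le_ceil _, ?_⟩
    have h2 := Nat.ceil_lt_add_one (by positivity : 0 ≤ 109/ε^3)
    have h3 : 1 ≤ 1/ε^3 := by
      rw [le_div_iff₀ (by positivity), one_mul]
      exact pow_le_one₀ hε.le (by linarith)
    have h4 : 110/ε^3 = 109/ε^3 + 1/ε^3 := by ring
    linarith
  obtain ⟨G, hG1, hG2⟩ : ∃ G : ℕ, 1/ε ≤ (G:ℝ) ∧ (G:ℝ) ≤ 3/(2*ε) := by
    refine ⟨⌈1/ε⌉₊, Nat.le_ceil _, ?_⟩
    have h2 := Nat.ceil_lt_add_one (by positivity : 0 ≤ 1/ε)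
    have h4 : 3/(2*ε) = 1/ε + (1/ε)/2 := by field_simp; norm_num
    linarith
  have hRlog : Real.log R ≤ 10 * lg := by
    have h2 : (R:ℝ) ≤ (1/ε)^10 := by
      refine hR2.trans ?_
      have h3 : (2:ℝ)^7 ≤ (1/ε)^7 := by gcongr
      have h4 : 110/ε^3 = 110 * (1/ε)^3 := by field_simp
      have h5 : (1/ε)^10 = (1/ε)^7 * (1/ε)^3 := by ring
      rw [h4, h5]
      gcongr
      linarith
    have h6 : (0:ℝ) < R := lt_of_lt_of_le (by positivity) hR1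
    calc Real.log R ≤ Real.log ((1/ε)^10) := Real.log_le_log h6 h2
      _ = 10 * lg := by rw [Real.log_pow]; push_cast; ring
  have hR3 : (2:ℝ) ≤ R := by
    refine le_trans ?_ hR1
    rw [le_div_iff₀ (by positivity)]
    have : ε^3 ≤ 1 := pow_le_one₀ hε.le (by linarith)
    linarith
  have hR3' : 2 ≤ R := by exact_mod_cast hR3
  have hRr : (1:ℝ) ≤ R := by linarith
  have hR0 : (0:ℝ) < R := by linarith
  set m : ℕ := Nat.log (R ^ A₀) N with hm
  have hbase : 1 < R ^ A₀ := Nat.one_lt_pow (by omega) hR3'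
  have hm1 : (R ^ A₀) ^ m ≤ N := Nat.pow_log_le_self _ (by omega)
  have hm2 : N < (R ^ A₀) ^ (m+1) := Nat.lt_pow_succ_log_self hbase N
  have hlogB : Real.log N ≤ 10 * A₀ * (m+1) * lg := by
    have h2 : (N:ℝ) ≤ ((R:ℝ) ^ A₀) ^ (m+1) := by exact_mod_cast hm2.le
    calc Real.log N ≤ Real.log (((R:ℝ) ^ A₀) ^ (m+1)) := Real.log_le_log hNr h2
      _ = (m+1) * (A₀ * Real.log R) := by rw [Real.log_pow, Real.log_pow]; push_cast; ring
      _ ≤ (m+1) * (A₀ * (10 * lg)) := by gcongr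
      _ = _ := by ring
  set x : ℝ := 1 / (80 * A₀) * ε / lg with hx
  have hx0 : 0 < x := by
    rw [hx]; positivity
  have hxB : x * Real.log N ≤ ε * (m+1) / 8 := by
    calc x * Real.log N ≤ x * (10 * A₀ * (m+1) * lg) := by gcongr
      _ = ε * (m+1) / 8 := by
        rw [hx]; field_simp; ring
  have hBx : Real.exp (-(ε * (m+1) / 8)) ≤ (N:ℝ) ^ (-x) := by
    rw [Real.rpow_def_of_pos hNr]
    apply Real.exp_le_exp.2
    linarith
  have hexp8 : Real.exp (1/8) ≤ 8/7 := by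
    have h2 := Real.add_one_le_exp (-(1/8:ℝ))
    rw [Real.exp_neg] at h2
    have h3 := Real.exp_pos (1/8:ℝ)
    rw [inv_eq_one_div, le_div_iff₀ h3] at h2
    linarith
  have hNx : (N:ℝ) ^ (-(c₂ / 2)) ≤ (N:ℝ) ^ (-x) := by
    apply Real.rpow_le_rpow_of_exponent_le hNR
    have h2 : x ≤ 1 / A₀ := by
      have e1 : x = (ε / (80 * lg)) * (1 / A₀) := by rw [hx]; field_simp
      have h3 : ε / (80 * lg) ≤ 1 := by
        rw [div_le_one (by positivity)]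
        linarith
      have h4 : 0 < 1 / (A₀:ℝ) := by positivity
      rw [e1]
      nlinarith
    linarith
  rcases Nat.lt_or_ge m 2 with hm3 | hm3
  · -- `N` is small
    have h2 : (E.card : ℝ) ≤ P := by
      have := card_le_card hE
      have h3 : (E.card : ℝ) ≤ S.card := by exact_mod_cast this
      linarith
    have h3 : (7/8:ℝ) ≤ (N:ℝ) ^ (-x) := by
      refine le_trans ?_ hBx
      have h4 : (m:ℝ) + 1 ≤ 2 := by
        have : m + 1 ≤ 2 := by omega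
        exact_mod_cast this
      have h5 : ε * (m+1) / 8 ≤ 1/8 := by nlinarith
      have h6 := Real.add_one_le_exp (-(ε * (m+1) / 8))
      linarith
    have h4 : (8:ℝ) ≤ 4 * C₂/ε := by
      have : 4 * C₂/ε = 4 * C₂ * (1/ε) := by ring
      rw [this]; nlinarith
    calc (E.card : ℝ) ≤ P := h2
      _ ≤ 8 * (7/8) * P := by linarith
      _ ≤ 4 * C₂ / ε * (N:ℝ) ^ (-x) * P := by gcongr
  · -- main case
    have hM8 : 2 ≤ (ε/2)^2 * (M:ℝ) := by
      rw [div_le_iff₀ (by positivity)] at hM1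
      nlinarith
    have hMr : (8:ℝ) ≤ M := by
      have h2 : (ε/2)^2 ≤ 1/4 := by nlinarith
      have h3 : (0:ℝ) ≤ M := Nat.cast_nonneg _
      nlinarith
    have hM1' : 1 ≤ M := by
      have : (1:ℝ) ≤ M := by linarith
      exact_mod_cast this
    have hRM : 12 * (M:ℝ) < ε * R := by
      have h3 : 12 * (M:ℝ) ≤ 108/ε^2 := by
        calc 12 * (M:ℝ) ≤ 12 * (9/ε^2) := by gcongr
          _ = _ := by ring
      have h4 : 109/ε^2 ≤ ε * R := by
        calc 109/ε^2 = ε * (109/ε^3) := by field_simp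
          _ ≤ _ := by gcongr
      have h5 : 108/ε^2 < 109/ε^2 := by
        rw [div_lt_div_iff_of_pos_right (by positivity)]; norm_num
      linarith
    have hLR : 2 + (M:ℝ) ≤ R := by
      refine le_trans ?_ hR1
      have h4 : 1 ≤ 1/ε^2 := by rw [le_div_iff₀ (by positivity)]; nlinarith
      have h5 : 1/ε^2 ≤ 1/ε^3 := by
        apply one_div_le_one_div_of_le (by positivity)
        apply pow_le_pow_of_le_one hε.le (by linarith) (by norm_num)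
      have h6 : 9/ε^2 = 9 * (1/ε^2) := by ring
      have h7 : 109/ε^3 = 109 * (1/ε^3) := by ring
      rw [h7]
      rw [h6] at hM2
      linarith
    set I : ℕ := m - 1 with hI
    have hI1 : 1 ≤ I := by omega
    have hIm : I + 1 = m := by omega
    -- `R ^ m ≤ N ^ (1 / A₀)`
    have hRm : (R:ℝ) ^ m ≤ (N:ℝ) ^ (1 / (A₀:ℝ)) := by
      have h2 : ((R:ℝ) ^ m) ^ A₀ ≤ N := by
        have h3 : (((R ^ A₀) ^ m : ℕ) : ℝ) ≤ N := by exact_mod_cast hm1
        push_cast at h3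
        calc ((R:ℝ) ^ m) ^ A₀ = ((R:ℝ) ^ A₀) ^ m := by rw [← pow_mul, ← pow_mul, mul_comm]
          _ ≤ N := h3
      calc (R:ℝ) ^ m = (((R:ℝ) ^ m) ^ A₀) ^ (1 / (A₀:ℝ)) := by
            rw [← Real.rpow_natCast ((R:ℝ) ^ m) A₀, ← Real.rpow_mul (by positivity)]
            rw [mul_one_div, div_self hA₀r.ne', Real.rpow_one]
        _ ≤ (N:ℝ) ^ (1 / (A₀:ℝ)) := Real.rpow_le_rpow (by positivity) h2 (by positivity)
    have hRm12 : (R:ℝ) ^ m ≤ (N:ℝ) ^ (1 / 12 : ℝ) := by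
      refine hRm.trans (Real.rpow_le_rpow_of_exponent_le hNR ?_)
      exact one_div_le_one_div_of_le (by norm_num) hA₀12
    set K : ℕ := kk N with hK
    have hN24 : (1 : ℝ) ≤ (N : ℝ) ^ (1 / 24 : ℝ) := Real.one_le_rpow hNR (by norm_num)
    have hK1 : 1 ≤ K := Nat.le_floor (by exact_mod_cast hN24)
    have hK2 : (K:ℝ) ≤ (N:ℝ) ^ (1 / 24 : ℝ) := Nat.floor_le (by positivity)
    have hpow : ∀ (a : ℝ) (j : ℕ), ((N:ℝ) ^ a) ^ j = (N:ℝ) ^ (a * j) := fun a j => by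
      rw [Real.rpow_mul hNr.le, Real.rpow_natCast]
    have hK6 : (K:ℝ) ^ 6 ≤ (N:ℝ) ^ (1 / 4 : ℝ) := by
      calc (K:ℝ) ^ 6 ≤ ((N:ℝ) ^ (1 / 24 : ℝ)) ^ 6 := by gcongr
        _ = (N:ℝ) ^ (1 / 4 : ℝ) := by rw [hpow]; congr 1; norm_num
    have hR3m : (R:ℝ) ^ (3 * I + 3) ≤ (N:ℝ) ^ (1 / 4 : ℝ) := by
      calc (R:ℝ) ^ (3 * I + 3) = ((R:ℝ) ^ m) ^ 3 := by rw [← pow_mul, ← hIm]; congr 1; ring
        _ ≤ ((N:ℝ) ^ (1 / 12 : ℝ)) ^ 3 := by gcongr
        _ = (N:ℝ) ^ (1 / 4 : ℝ) := by rw [hpow]; congr 1; norm_num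
    have hτ : (K:ℝ) ^ 6 * (R:ℝ) ^ (3 * I + 3) * (N:ℝ) ^ (-(1 / 2) : ℝ) ≤ 1 := by
      calc (K:ℝ) ^ 6 * (R:ℝ) ^ (3 * I + 3) * (N:ℝ) ^ (-(1 / 2) : ℝ)
          ≤ (N:ℝ) ^ (1 / 4 : ℝ) * (N:ℝ) ^ (1 / 4 : ℝ) * (N:ℝ) ^ (-(1 / 2) : ℝ) := by gcongr
        _ = 1 := by
            rw [← Real.rpow_add hNr, ← Real.rpow_add hNr]
            norm_num
    have hKB : K ^ 4 * R ^ (2 * I + 2) ≤ N := by
      have h2 : (K:ℝ) ^ 4 * (R:ℝ) ^ (2 * I + 2) ≤ N := by
        calc (K:ℝ) ^ 4 * (R:ℝ) ^ (2 * I + 2) = (K:ℝ) ^ 4 * ((R:ℝ) ^ m) ^ 2 := by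
              rw [← pow_mul, ← hIm]; congr 2; ring
          _ ≤ ((N:ℝ) ^ (1 / 24 : ℝ)) ^ 4 * ((N:ℝ) ^ (1 / 12 : ℝ)) ^ 2 := by gcongr
          _ = (N:ℝ) ^ (1 / 3 : ℝ) := by
              rw [hpow, hpow, ← Real.rpow_add hNr]; congr 1; norm_num
          _ ≤ (N:ℝ) ^ (1 : ℝ) := Real.rpow_le_rpow_of_exponent_le hNR (by norm_num)
          _ = N := Real.rpow_one _
      exact_mod_cast h2
    -- the data of the bad elements
    choose! γ Q hQ using hbad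
    set QQ : ℕ := E.sup Q with hQQ
    have hQle : ∀ l ∈ E, Q l ≤ QQ := fun l hl => Finset.le_sup (f := Q) hl
    obtain ⟨X, q, p, hX, hQX, hnice, hw⟩ := dich α θ ε ((N : ℝ) ^ (-(1 / 2) : ℝ)) hε (by linarith) q₀
      h1 M R I K hM1' hK1 hI1 hRM (by positivity) hτ
      (fun b hb hb2 => hθ b hb (hb2.trans hKB)) QQ
    obtain ⟨f, c, s, hf0, hf1, hf, hc0, hs1, hs2, hcL⟩ := exists_majorant (ε/2) (by positivity)
      (by linarith) M hM8
    have hqQ : ∀ i < I, QQ ≤ q i := by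
      intro i hi
      have h2 := hnice.low i hi
      have h3 : X ≤ X * R ^ i := by
        have : (1:ℝ) ≤ R ^ i := one_le_pow₀ hRr
        nlinarith
      have : (QQ:ℝ) ≤ q i := by nlinarith
      exact_mod_cast this
    have hGr : (0:ℝ) < G := lt_of_lt_of_le (by positivity) hG1
    have hGn : 0 < G := by exact_mod_cast hGr
    -- cells
    choose g hg1 hg2 using fun l : ι => exists_cell G hGn (γ l)
    have hV0 : 0 ≤ C₂ * (N : ℝ) ^ (-c₂) * P := by positivity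
    have h3 : (1 - ε/8) ^ I ≤ 8/7 * (N:ℝ) ^ (-x) := by
      have h4 : 1 - ε/8 ≤ Real.exp (-(ε/8)) := by
        have := Real.add_one_le_exp (-(ε/8))
        linarith
      calc (1 - ε/8) ^ I ≤ (Real.exp (-(ε/8))) ^ I := by
            apply pow_le_pow_left₀ (by linarith) h4
        _ = Real.exp (-(ε * ((m:ℝ) - 1) / 8)) := by
            rw [← Real.exp_nat_mul]
            congr 1
            rw [hI, Nat.cast_sub (by omega)]
            push_cast; ring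
        _ = Real.exp (ε/4) * Real.exp (-(ε * (m+1) / 8)) := by
            rw [← Real.exp_add]; congr 1; ring
        _ ≤ Real.exp (1/8) * (N:ℝ) ^ (-x) :=
            mul_le_mul (Real.exp_le_exp.2 (by linarith)) hBx (Real.exp_pos _).le (Real.exp_pos _).le
        _ ≤ 8/7 * (N:ℝ) ^ (-x) := by gcongr
    have hcell : ∀ k : ℕ, ((E.filter (fun l => g l = k)).card : ℝ) ≤
        (8/7 + C₂) * (N:ℝ) ^ (-x) * P := by
      intro k
      have h2 := count_fam S z M c f (C₂ * (N : ℝ) ^ (-c₂) * P) (2 + M) (ctr G k) q hM1' hf hf0 (ε/2)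
        hf1 hcL (by positivity) hV0 s (by linarith) hc0 I (by
          intro h hh hne
          refine hexp _ fun j hj1 hj2 t => ?_
          have h4 := hw h hh hne j hj1 hj2 t
          refine h4.trans_le (le_of_eq ?_)
          congr 1
          ring) (E.filter (fun l => g l = k)) ((filter_subset _ _).trans hE) (by
          intro l hl i hi n
          rw [mem_filter] at hl
          have h3 := hQ l hl.1 (q i) ((hQle l hl.1).trans (hqQ i hi)) (p i) (hnice.lt1 i hi)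
            (n - ⌊γ l⌋)
          have h4 := hg2 l
          rw [hl.2] at h4
          have h5 : (1:ℝ) / (2 * G) ≤ ε / 2 := by
            rw [div_le_div_iff₀ (by positivity) (by norm_num)]
            rw [div_le_iff₀ hε] at hG1
            linarith
          have h6 : ((q i : ℝ) * z l - γ l) - ((n - ⌊γ l⌋ : ℤ) : ℝ) =
              ((q i : ℝ) * z l - ctr G k - n) - (Int.fract (γ l) - ctr G k) := by
            have := Int.self_sub_floor (γ l)
            push_cast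
            linarith
          rw [h6] at h3
          have h7 := abs_sub (((q i : ℝ) * z l - ctr G k - n)) (Int.fract (γ l) - ctr G k)
          linarith)
      refine h2.trans ?_
      have h4 : (1 - s) ^ I ≤ (1 - ε / 8) ^ I := by
        apply pow_le_pow_left₀ (by linarith)
        linarith
      have h5 : (2 + (M:ℝ)) ^ I ≤ (N:ℝ) ^ (c₂ / 2) := by
        calc (2 + (M:ℝ)) ^ I ≤ (R:ℝ) ^ I := by gcongr
          _ ≤ (R:ℝ) ^ m := pow_le_pow_right₀ hRr (by omega)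
          _ ≤ (N:ℝ) ^ (1 / (A₀:ℝ)) := hRm
          _ ≤ _ := Real.rpow_le_rpow_of_exponent_le hNR hA₀c
      have h6 : (2 + (M:ℝ)) ^ I * (C₂ * (N : ℝ) ^ (-c₂) * P) ≤ C₂ * (N:ℝ) ^ (-x) * P := by
        calc (2 + (M:ℝ)) ^ I * (C₂ * (N : ℝ) ^ (-c₂) * P)
            ≤ (N:ℝ) ^ (c₂ / 2) * (C₂ * (N : ℝ) ^ (-c₂) * P) := by gcongr
          _ = C₂ * ((N:ℝ) ^ (c₂ / 2) * (N : ℝ) ^ (-c₂)) * P := by ring
          _ = C₂ * (N:ℝ) ^ (-(c₂ / 2)) * P := by
              rw [← Real.rpow_add hNr]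
              congr 3
              ring
          _ ≤ _ := by gcongr
      have h7 : (1 - s) ^ I * (S.card : ℝ) ≤ 8/7 * (N:ℝ) ^ (-x) * P := by
        have h8 : 0 ≤ (1 - s) ^ I := pow_nonneg (by linarith) _
        calc (1 - s) ^ I * (S.card : ℝ) ≤ (1 - s) ^ I * P := mul_le_mul_of_nonneg_left hSP h8
          _ ≤ (8/7 * (N:ℝ) ^ (-x)) * P := mul_le_mul_of_nonneg_right (h4.trans h3) hP0
      calc (1 - s) ^ I * (S.card : ℝ) + (2 + (M:ℝ)) ^ I * (C₂ * (N : ℝ) ^ (-c₂) * P)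
          ≤ 8/7 * (N:ℝ) ^ (-x) * P + C₂ * (N:ℝ) ^ (-x) * P := add_le_add h7 h6
        _ = _ := by ring
    have hcard : (E.card : ℝ) = ∑ k ∈ range G, ((E.filter (fun l => g l = k)).card : ℝ) := by
      have := card_eq_sum_card_fiberwise (s := E) (f := g) (t := range G) (by
        intro l _
        exact_mod_cast mem_range.2 (hg1 l))
      exact_mod_cast this
    rw [hcard]
    have hNx0 : 0 < (N:ℝ) ^ (-x) := Real.rpow_pos_of_pos hNr _
    calc ∑ k ∈ range G, ((E.filter (fun l => g l = k)).card : ℝ)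
        ≤ ∑ _k ∈ range G, (8/7 + C₂) * (N:ℝ) ^ (-x) * P := sum_le_sum fun k _ => hcell k
      _ = G * ((8/7 + C₂) * (N:ℝ) ^ (-x) * P) := by rw [sum_const, card_range, nsmul_eq_mul]
      _ ≤ (3/(2*ε)) * ((8/7 + C₂) * (N:ℝ) ^ (-x) * P) := by gcongr
      _ = (3/2 * (8/7 + C₂)) / ε * (N:ℝ) ^ (-x) * P := by field_simp
      _ ≤ 4 * C₂ / ε * (N:ℝ) ^ (-x) * P := by
          have hCC : 3/2 * (8/7 + C₂) ≤ 4 * C₂ := by linarith
          have hCe : 3/2 * (8/7 + C₂) / ε ≤ 4 * C₂ / ε := div_le_div_of_nonneg_right hCC hε.le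
          have hNP : 0 ≤ (N:ℝ) ^ (-x) := hNx0.le
          exact mul_le_mul_of_nonneg_right (mul_le_mul_of_nonneg_right hCe hNP) hP0

end Pool.Agent.Run7.h566.LW
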