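import Mathlib
import Pool.Agent.Run7.h566.LW.Param

/-! Littlewood's conjecture in multilinear families. -/

set_option autoImplicit false

open Finset Filter
open scoped Classical

namespace Pool.Agent.Run7.h566.LW

open Pool.Agent.TH869.LPS (Gd bad_of_not_gd log_pos_of)
open Pool.Agent.Run7.h566.ML (cube card_cube Free)

lemma e_eq (t : ℝ) : Pool.Agent.H332R2.Lit.e t = Pool.Agent.H469R2.NK.e t := by
  unfold Pool.Agent.H332R2.Lit.e Pool.Agent.H469R2.NK.e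
  push_cast
  ring_nf

theorem main (n : ℕ) : ∃ c C : ℝ, 0 < c ∧ 0 < C ∧ ∀ ε : ℝ, 0 < ε → ε ≤ 1 / 2 → ∀ (α θ : ℝ) (M : ℕ),
    1 ≤ M → (∀ b : ℕ, 1 ≤ b → b ≤ M → ∀ u v : ℤ, (b : ℝ) * θ ≠ u + v * α) →
    ∀ x : Fin (n + 2) → (Fin (n + 2) → ℕ) → ℝ, (∀ j, Free j (x j)) →
    (((cube (n + 2) M).filter fun a =>
      ¬ ∀ γ : ℝ, Gd ε α ((∏ i, (a i : ℝ)) * θ + ∑ j, x j a) γ).card : ℝ) ≤
      C / ε * (M : ℝ) ^ ((n : ℝ) + 2 - c * ε / Real.log (1 / ε)) := by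
  obtain ⟨C₂, hC₂, hexp⟩ := exp_bound n
  obtain ⟨c, C, hc, hC, hfam⟩ := fam (1 / (48 * 2 ^ (n + 1))) C₂ (by positivity) hC₂
  refine ⟨c, C, hc, hC, fun ε hε hε2 α θ M hM hθ x hx => ?_⟩
  have hM0 : (0 : ℝ) < M := by exact_mod_cast hM
  set E : Finset (Fin (n + 2) → ℕ) := (cube (n + 2) M).filter fun a =>
      ¬ ∀ γ : ℝ, Gd ε α ((∏ i, (a i : ℝ)) * θ + ∑ j, x j a) γ with hE
  have hlog := log_pos_of ε hε hε2
  rcases E.eq_empty_or_nonempty with hE0 | ⟨a₀, ha₀⟩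
  · rw [hE0, card_empty, Nat.cast_zero]
    positivity
  have hbad : ∀ a ∈ E, Pool.Agent.TH869.LPS.Bad ε α ((∏ i, (a i : ℝ)) * θ + ∑ j, x j a) ∧
      ∃ q₀ : ℕ, ∀ q : ℕ, q₀ ≤ q → ∀ p : ℤ, 2 * ε ≤ (q:ℝ) * |q * α - p| := by
    intro a ha
    rw [hE, mem_filter] at ha
    obtain ⟨_, h⟩ := ha
    push Not at h
    obtain ⟨γ, hγ⟩ := h
    exact bad_of_not_gd hγ
  obtain ⟨q₀, hq₀⟩ := (hbad a₀ ha₀).2
  have h1 := hfam ε α hε hε2 q₀ hq₀ θ M hM hθ (Fin (n + 2) → ℕ) (cube (n + 2) M)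
    (fun a => (∏ i, (a i : ℝ)) * θ + ∑ j, x j a) ((M : ℝ) ^ (n + 2))
    (by
      rw [card_cube]
      push_cast
      exact le_rfl)
    (fun w hw => by
      have h2 := hexp M hM (w * θ) hw
        (fun j a => Pool.Agent.H469R2.NK.e (w * x j a))
        (fun j a => (Pool.Agent.H469R2.NK.norm_e _).le)
        (fun j a a' haa => by
          beta_reduce
          rw [hx j a a' haa])
      refine le_trans (le_of_eq ?_) h2
      congr 1
      refine sum_congr rfl fun a _ => ?_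
      rw [← Pool.Agent.R485.Mult.e_sum, ← Pool.Agent.H469R2.NK.e_add, e_eq]
      congr 1
      rw [mul_add, mul_sum]
      ring) E (filter_subset _ _) (fun a ha => (hbad a ha).1)
  refine h1.trans (le_of_eq ?_)
  rw [mul_assoc, ← Real.rpow_natCast (M : ℝ) (n + 2), ← Real.rpow_add hM0]
  congr 2
  push_cast
  ring

end Pool.Agent.Run7.h566.LW
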